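import Pool.Agent.Helper6.MONO.Stmts

set_option autoImplicit false

namespace Pool.Agent.Helper6.MONO

theorem der_rsg_div (ε : Bool) (x q : ℝ) : rsg ε (x / q) = rsg ε x / q := by
  cases ε
  · change -(x / q) = -x / q
    rw [neg_div]
  · rfl

theorem der_rsg {f : ℝ → ℝ} {f' s : ℝ} (ε : Bool) (hf : HasDerivAt f f' s) :
    HasDerivAt (fun t => rsg ε (f t)) (rsg ε f') s := by
  cases ε
  · exact hf.neg
  · exact hf

theorem der_quot {f g : ℝ → ℝ} {f' g' q s : ℝ} (hf : HasDerivAt f (f' / q) s)
    (hg : HasDerivAt g (g' / q) s) (hg0 : g s ≠ 0) :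
    HasDerivAt (fun t => f t / g t) ((f' - f s / g s * g') / g s / q) s := by
  refine (hf.div hg hg0).congr_deriv ?_
  rcases eq_or_ne q 0 with hq | hq
  · rw [hq]
    simp
  · field_simp

theorem st_DER : ST_DER := by
  intro s k hd he R ε ev Z z yd hs hk hhd hhe hM hvn
  have hq : (1 : ℝ) + s ≠ 0 := by positivity
  have hZ := hM.val
  have ea : (Z s).a = z.a := by rw [hZ]; rfl
  have eb : (Z s).b = z.b := by rw [hZ]; rfl
  have ebe : (Z s).be = z.be := by rw [hZ]; rfl
  have eyr : (Z s).yr = z.yr := by rw [hZ]; rfl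
  -- the four basic functions
  have hXr : HasDerivAt (fun t => vXr t ε (Z t)) (dXr s ε z / (1 + s)) s := by
    have h1 := hM.da.sub ((hasDerivAt_id s).mul hM.db)
    have h2 := der_rsg ε h1
    refine h2.congr_deriv ?_
    unfold dXr
    rw [← der_rsg_div]
    congr 1
    simp only [id]
    rw [eb]
    field_simp
    ring
  have hXi : HasDerivAt (fun t => vXi (Z t)) (dXi z / (1 + s)) s := by
    have h1 := hM.da.add hM.db
    refine h1.congr_deriv ?_
    unfold dXi
    ring
  have hone : HasDerivAt (fun t : ℝ => 1 + t) 1 s := (hasDerivAt_id s).const_add 1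
  have hYr : HasDerivAt (fun t => vYr t (Z t)) (dYr s z yd / (1 + s)) s := by
    have h1 := hone.mul hM.dyr
    refine h1.congr_deriv ?_
    unfold dYr
    rw [eyr]
    field_simp
  have hYi : HasDerivAt (fun t => vYi t ε (Z t)) (dYi s ε z / (1 + s)) s := by
    have h1 := hone.mul (der_rsg ε hM.dbe)
    refine h1.congr_deriv ?_
    unfold dYi
    rw [ebe, mul_div_cancel_left₀ _ hq, der_rsg_div, mul_div_cancel₀ _ hq, one_mul]
    cases ε
    · change -z.be + -z.bed = -(z.be + z.bed)
      ring
    · rfl
  -- linear combinations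
  have hDr : HasDerivAt (fun t => vDr t ε ev (Z t) k hd he R)
      (dDr s ε z k hd he R yd / (1 + s)) s := by
    have h1 := (((hXr.const_mul (2 * (R * gP k hd he))).const_add 1).add
      (hYr.const_mul (((R * R) - SbP k) * (gP k hd he * gP k hd he)))).add_const
      (CrP ev k hd he R)
    refine h1.congr_deriv ?_
    unfold dDr
    ring
  have hDi : HasDerivAt (fun t => vDi t ε ev (Z t) k hd he R)
      (dDi s ε z k hd he R / (1 + s)) s := by
    have h1 := ((hXi.const_mul (2 * (R * gP k hd he))).add
      (hYi.const_mul (((R * R) - SbP k) * (gP k hd he * gP k hd he)))).add_const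
      (rsg ε (CiP ev k hd he R))
    refine h1.congr_deriv ?_
    unfold dDi
    ring
  have hNr : HasDerivAt (fun t => vNr t ε (Z t) k hd he R)
      (dNr s ε z k hd he R yd / (1 + s)) s := by
    have h1 := ((hXr.const_mul (((R * R) - SbP k) * gP k hd he)).const_add R).sub
      (hYr.const_mul (2 * (SbP k * R * (gP k hd he * gP k hd he))))
    refine h1.congr_deriv ?_
    unfold dNr
    ring
  have hNi : HasDerivAt (fun t => vNi t ε (Z t) k hd he R)
      (dNi s ε z k hd he R / (1 + s)) s := by
    have h1 := ((hXi.const_mul (((R * R) - SbP k) * gP k hd he)).const_add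
      (R * rsg ε (b0P k hd he))).sub
      (hYi.const_mul (2 * (SbP k * R * (gP k hd he * gP k hd he))))
    refine h1.congr_deriv ?_
    unfold dNi
    ring
  have eDr : vDr s ε ev (Z s) k hd he R = vDr s ε ev z.val k hd he R := by rw [hZ]
  have eDi : vDi s ε ev (Z s) k hd he R = vDi s ε ev z.val k hd he R := by rw [hZ]
  have eNr : vNr s ε (Z s) k hd he R = vNr s ε z.val k hd he R := by rw [hZ]
  have eNi : vNi s ε (Z s) k hd he R = vNi s ε z.val k hd he R := by rw [hZ]
  have hn : HasDerivAt (fun t => vn t ε ev (Z t) k hd he R)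
      (dn s ε ev z k hd he R yd / (1 + s)) s := by
    have h1 := (hDr.mul hDr).add ((hasDerivAt_id s).mul (hDi.mul hDi))
    refine h1.congr_deriv ?_
    unfold dn
    simp only [id, Pi.mul_apply, eDr, eDi]
    field_simp
    ring
  have hn0 : vn s ε ev (Z s) k hd he R ≠ 0 := by
    rw [hZ]
    exact hvn.ne'
  have hwr : HasDerivAt (fun t => vwr t ε ev (Z t) k hd he R)
      (dwr s ε ev z k hd he R yd / (1 + s)) s := by
    have h1 : HasDerivAt (fun t => vNr t ε (Z t) k hd he R * vDr t ε ev (Z t) k hd he R +
        t * (vNi t ε (Z t) k hd he R * vDi t ε ev (Z t) k hd he R))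
        ((dNr s ε z k hd he R yd * vDr s ε ev z.val k hd he R
          + vNr s ε z.val k hd he R * dDr s ε z k hd he R yd
          + s * (dNi s ε z k hd he R * vDi s ε ev z.val k hd he R
            + vNi s ε z.val k hd he R * dDi s ε z k hd he R)
          + (1 + s) * (vNi s ε z.val k hd he R * vDi s ε ev z.val k hd he R)) / (1 + s)) s := by
      refine ((hNr.mul hDr).add ((hasDerivAt_id s).mul (hNi.mul hDi))).congr_deriv ?_
      simp only [id, Pi.mul_apply, eDr, eDi, eNr, eNi]
      field_simp
      ring
    refine (der_quot h1 hn hn0).congr_deriv ?_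
    rw [hZ]
    rfl
  have hwi : HasDerivAt (fun t => vwi t ε ev (Z t) k hd he R)
      (dwi s ε ev z k hd he R yd / (1 + s)) s := by
    have h1 : HasDerivAt (fun t => vNi t ε (Z t) k hd he R * vDr t ε ev (Z t) k hd he R -
        vNr t ε (Z t) k hd he R * vDi t ε ev (Z t) k hd he R)
        ((dNi s ε z k hd he R * vDr s ε ev z.val k hd he R
          + vNi s ε z.val k hd he R * dDr s ε z k hd he R yd
          - dNr s ε z k hd he R yd * vDi s ε ev z.val k hd he R
          - vNr s ε z.val k hd he R * dDi s ε z k hd he R) / (1 + s)) s := by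
      refine ((hNi.mul hDr).sub (hNr.mul hDi)).congr_deriv ?_
      simp only [eDr, eDi, eNr, eNi]
      ring
    refine (der_quot h1 hn hn0).congr_deriv ?_
    rw [hZ]
    rfl
  have hbe : HasDerivAt (fun t => -(yfP ev k hd he R * vDi t ε ev (Z t) k hd he R /
      vn t ε ev (Z t) k hd he R)) (dyi s ε ev z k hd he R yd / (1 + s)) s := by
    have h1 : HasDerivAt (fun t => yfP ev k hd he R * vDi t ε ev (Z t) k hd he R)
        (yfP ev k hd he R * dDi s ε z k hd he R / (1 + s)) s := by
      refine (hDi.const_mul _).congr_deriv ?_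
      ring
    refine (der_quot h1 hn hn0).neg.congr_deriv ?_
    rw [hZ]
    unfold dyi
    ring
  have hyr : HasDerivAt (fun t => yfP ev k hd he R * vDr t ε ev (Z t) k hd he R /
      vn t ε ev (Z t) k hd he R) (dyr s ε ev z k hd he R yd / (1 + s)) s := by
    have h1 : HasDerivAt (fun t => yfP ev k hd he R * vDr t ε ev (Z t) k hd he R)
        (yfP ev k hd he R * dDr s ε z k hd he R yd / (1 + s)) s := by
      refine (hDr.const_mul _).congr_deriv ?_
      ring
    refine (der_quot h1 hn hn0).congr_deriv ?_
    rw [hZ]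
    unfold dyr
    ring
  refine ⟨hwr, ?_, ?_, hyr, ?_⟩
  · refine (der_rsg (!(cjP ε ev)) hwi).congr_deriv ?_
    exact der_rsg_div _ _ _
  · refine (der_rsg (!(cjP ε ev)) hbe).congr_deriv ?_
    exact der_rsg_div _ _ _
  · intro hS
    have hg : 0 < gP k hd he := by
      unfold gP
      positivity
    have hq0 : (0 : ℝ) < 1 + s := by positivity
    have hB : 0 < k * k * (gP k hd he * gP k hd he) := by positivity
    have hden : 0 < k * k * (gP k hd he * gP k hd he) * (1 + s) *
        ((R * R + SbP k) * (R * R + SbP k)) := by positivity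
    have hfac : 0 < fac s ε ev z.val k hd he R := by
      unfold fac
      have : 0 < hd * hd * vn s ε ev z.val k hd he R := by positivity
      exact div_pos this hden
    refine ⟨hfac, ?_⟩
    have h1 : HasDerivAt (fun t => hd * hd * vn t ε ev (Z t) k hd he R)
        (hd * hd * dn s ε ev z k hd he R yd / (1 + s)) s := by
      refine (hn.const_mul _).congr_deriv ?_
      ring
    have h2 : HasDerivAt (fun t : ℝ => k * k * (gP k hd he * gP k hd he) * (1 + t) *
        ((R * R + SbP k) * (R * R + SbP k)))
        (k * k * (gP k hd he * gP k hd he) * (1 + s) * ((R * R + SbP k) * (R * R + SbP k)) /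
          (1 + s)) s := by
      refine ((hone.const_mul _).mul_const _).congr_deriv ?_
      field_simp
    have h3 := der_quot h1 h2 hden.ne'
    have h4 : fac s ε ev (Z s) k hd he R ≠ 0 := by
      rw [hZ]
      exact hfac.ne'
    have h5 : HasDerivAt (fun t => fac t ε ev (Z t) k hd he R) _ s := h3
    refine (h5.log h4).congr_deriv ?_
    unfold dL
    have hv := hvn.ne'
    have e1 : fac s ε ev (Z s) k hd he R = hd * hd * vn s ε ev z.val k hd he R /
        (k * k * (gP k hd he * gP k hd he) * (1 + s) *
          ((R * R + SbP k) * (R * R + SbP k))) := by rw [hZ]; rfl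
    rw [e1, hZ]
    have hden0 := hden.ne'
    generalize hdd : k * k * (gP k hd he * gP k hd he) * (1 + s) *
      ((R * R + SbP k) * (R * R + SbP k)) = dd at hden0
    have hhd0 := hhd.ne'
    field_simp

end Pool.Agent.Helper6.MONO
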