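import Pool.Agent.Helper6.MONO.Stmts

set_option autoImplicit false

namespace Pool.Agent.Helper6.MONO

theorem spn_mm {p q r : ℕ} (hp : 3 ≤ p) (hq : 3 ≤ q) (hr : 3 ≤ r) {i j : Fin 3} (hij : i ≠ j) :
    3 ≤ mm p q r i j := by
  fin_cases i <;> fin_cases j <;> first
    | exact absurd rfl hij
    | exact hp
    | exact hq
    | exact hr

theorem spn_Kp_pos {M : ℕ} (hM : 3 ≤ M) : 0 < Kp M := by
  unfold Kp
  have hM' : (3 : ℝ) ≤ M := by exact_mod_cast hM
  have hpi := Real.pi_pos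
  have h1 : Real.pi / M < Real.pi / 2 :=
    div_lt_div_of_pos_left hpi (by norm_num) (by linarith)
  have h2 : 0 < Real.pi / M := div_pos hpi (by linarith)
  have h3 := Real.cos_pos_of_mem_Ioo ⟨by linarith, h1⟩
  linarith

theorem spn_Kp_le (M : ℕ) : Kp M ≤ 2 := by
  unfold Kp
  linarith [Real.cos_le_one (Real.pi / M)]

theorem spn_kk_pos {p q r : ℕ} (hp : 3 ≤ p) (hq : 3 ≤ q) (hr : 3 ≤ r) {i j : Fin 3} (hij : i ≠ j) :
    0 < kk p q r i j := spn_Kp_pos (spn_mm hp hq hr hij)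

theorem spn_second {K t y0 y1 y2 : ℝ} (hK : 0 ≤ K) (h0 : y0 = (3 / 5) * (3 / 5) + t + K * (y0 * y0))
    (h1 : y1 = (7 / 10) * (7 / 10) + t + K * (y1 * y1))
    (h2 : y2 = (4 / 5) * (4 / 5) + t + K * (y2 * y2)) : y0 - 2 * y1 + y2 ≠ 0 := by
  intro h
  have e1 : y1 = (y0 + y2) / 2 := by linarith
  have e2 : y0 * y0 - 2 * (y1 * y1) + y2 * y2 = (y0 - y2) ^ 2 / 2 := by
    rw [e1]
    ring
  have e3 : y0 - 2 * y1 + y2 = 1 / 50 + K * (y0 * y0 - 2 * (y1 * y1) + y2 * y2) := by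
    linarith
  rw [e2, h] at e3
  have e4 : 0 ≤ K * ((y0 - y2) ^ 2 / 2) := by positivity
  linarith

theorem st_SPN : ST_SPN := by
  intro p q r hp hq hr τ G hG c d e hD hNR
  obtain ⟨hcd, hde, hec⟩ := hD
  have hk : 0 < kk p q r d e := spn_kk_pos hp hq hr hde
  have hhd : 0 < kk p q r c d := spn_kk_pos hp hq hr hcd
  have hhe : 0 < kk p q r c e := spn_kk_pos hp hq hr hec.symm
  have hk2 : kk p q r d e ≤ 2 := spn_Kp_le _
  have hGdc : G d c ≠ 0 := by
    rw [← norm_ne_zero_iff, hG.nrm d c hcd.symm]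
    exact (spn_kk_pos hp hq hr hcd.symm).ne'
  have hGec : G e c ≠ 0 := by
    rw [← norm_ne_zero_iff, hG.nrm e c hec]
    exact (spn_kk_pos hp hq hr hec).ne'
  have hι : (1 : ℂ) + iot τ c d ≠ 0 := by
    intro h
    have h1 := congrArg Complex.re h
    unfold iot at h1
    simp at h1
  have hcP : 0 < cP (kk p q r d e) (kk p q r c d) (kk p q r c e) := by
    unfold cP
    positivity
  set k := kk p q r d e with hkdef
  set hd := kk p q r c d with hhddef
  set he := kk p q r c e with hhedef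
  -- second difference
  have hNR' : ∀ i, y0 (τ ^ 2) k hd he (av i) = av i * av i + SbP hd +
      (SbP k * (gP k hd he * gP k hd he) * (1 + τ ^ 2)) *
        (y0 (τ ^ 2) k hd he (av i) * y0 (τ ^ 2) k hd he (av i)) := by
    intro i
    have h1 := hNR i
    unfold NR zst z0 at h1
    simp only [] at h1
    linarith
  have hSb : 0 ≤ SbP k := by
    unfold SbP
    have h1 : 0 ≤ 2 - k := by linarith
    positivity
  have hK : 0 ≤ SbP k * (gP k hd he * gP k hd he) * (1 + τ ^ 2) := by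
    have h1 : 0 ≤ gP k hd he * gP k hd he := mul_self_nonneg _
    positivity
  have hsec := spn_second hK (hNR' 0) (hNR' 1) (hNR' 2)
  -- the vectors
  let δ : ℂ := ((he * hd ^ 2 : ℝ) : ℂ) * (1 + iot τ c d) / (((4 * cP k hd he : ℝ) : ℂ) * G e c)
  have hδ : δ ≠ 0 := by
    refine div_ne_zero (mul_ne_zero ?_ hι) (mul_ne_zero ?_ hGec)
    · exact_mod_cast (by positivity : (0 : ℝ) < he * hd ^ 2).ne'
    · exact_mod_cast (by positivity : (0 : ℝ) < 4 * cP k hd he).ne'
  let xe : Fin 3 → ℂ := fun i => δ * (y0 (τ ^ 2) k hd he (av i) : ℝ)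
  let xd : Fin 3 → ℂ := fun i =>
    (G e d * xe i + G c d - ((hd ^ 2 : ℝ) : ℂ) * (av i : ℝ) / G d c) / 2
  let x : Fin 3 → V3 := fun i j => if j = c then 1 else if j = d then xd i else xe i
  have hxc : ∀ i, x i c = 1 := fun i => if_pos rfl
  have hxd : ∀ i, x i d = xd i := fun i => by
    change (if d = c then (1 : ℂ) else if d = d then xd i else xe i) = xd i
    rw [if_neg hcd.symm, if_pos rfl]
  have hxe : ∀ i, x i e = xe i := fun i => by
    change (if e = c then (1 : ℂ) else if e = d then xd i else xe i) = xe i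
    rw [if_neg hec, if_neg hde.symm]
  refine ⟨x, ?_, ?_⟩
  · rw [Fintype.linearIndependent_iff]
    intro g hg
    rw [Fin.sum_univ_three] at hg
    have e1 := congrFun hg c
    have e2 := congrFun hg e
    have e3 := congrFun hg d
    simp only [Pi.add_apply, Pi.smul_apply, smul_eq_mul, Pi.zero_apply, hxc, mul_one] at e1
    simp only [Pi.add_apply, Pi.smul_apply, smul_eq_mul, Pi.zero_apply, hxe] at e2
    simp only [Pi.add_apply, Pi.smul_apply, smul_eq_mul, Pi.zero_apply, hxd] at e3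
    have e4 : g 0 * (y0 (τ ^ 2) k hd he (av 0) : ℝ) + g 1 * (y0 (τ ^ 2) k hd he (av 1) : ℝ) +
        g 2 * (y0 (τ ^ 2) k hd he (av 2) : ℝ) = 0 := by
      have h1 : δ * (g 0 * (y0 (τ ^ 2) k hd he (av 0) : ℝ) +
          g 1 * (y0 (τ ^ 2) k hd he (av 1) : ℝ) +
          g 2 * (y0 (τ ^ 2) k hd he (av 2) : ℝ)) = 0 := by
        rw [← e2]
        ring
      exact (mul_eq_zero.1 h1).resolve_left hδ
    have e5 : g 0 * (av 0 : ℝ) + g 1 * (av 1 : ℝ) + g 2 * (av 2 : ℝ) = 0 := by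
      have h1 : (-(((hd ^ 2 : ℝ) : ℂ) / G d c / 2)) *
          (g 0 * (av 0 : ℝ) + g 1 * (av 1 : ℝ) + g 2 * (av 2 : ℝ)) = 0 := by
        have h2 : g 0 * xd 0 + g 1 * xd 1 + g 2 * xd 2 =
            (G e d / 2) * (g 0 * xe 0 + g 1 * xe 1 + g 2 * xe 2) +
            (G c d / 2) * (g 0 + g 1 + g 2) +
            (-(((hd ^ 2 : ℝ) : ℂ) / G d c / 2)) *
              (g 0 * (av 0 : ℝ) + g 1 * (av 1 : ℝ) + g 2 * (av 2 : ℝ)) := by
          simp only [xd]
          ring
        rw [e3, e2, e1] at h2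
        rw [mul_zero, mul_zero, zero_add, zero_add] at h2
        exact h2.symm
      refine (mul_eq_zero.1 h1).resolve_left (neg_ne_zero.2 (div_ne_zero (div_ne_zero ?_ hGdc)
        two_ne_zero))
      exact_mod_cast (by positivity : (0 : ℝ) < hd ^ 2).ne'
    have a0 : ((av 0 : ℝ) : ℂ) = 3 / 5 := by
      have : av 0 = 3 / 5 := rfl
      rw [this]
      push_cast
      ring
    have a1 : ((av 1 : ℝ) : ℂ) = 7 / 10 := by
      have : av 1 = 7 / 10 := rfl
      rw [this]
      push_cast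
      ring
    have a2 : ((av 2 : ℝ) : ℂ) = 4 / 5 := by
      have : av 2 = 4 / 5 := rfl
      rw [this]
      push_cast
      ring
    rw [a0, a1, a2] at e5
    have g1 : g 1 = -2 * g 2 := by
      linear_combination 10 * e5 - 6 * e1
    have g0 : g 0 = g 2 := by
      linear_combination e1 - g1
    rw [g0, g1] at e4
    have e6 : g 2 * (((y0 (τ ^ 2) k hd he (av 0)) - 2 * (y0 (τ ^ 2) k hd he (av 1)) +
        (y0 (τ ^ 2) k hd he (av 2)) : ℝ) : ℂ) = 0 := by
      push_cast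
      linear_combination e4
    have g2 : g 2 = 0 := by
      refine (mul_eq_zero.1 e6).resolve_right ?_
      exact_mod_cast hsec
    intro i
    fin_cases i
    · change g 0 = 0
      rw [g0, g2]
    · change g 1 = 0
      rw [g1, g2, mul_zero]
    · exact g2
  · intro i
    have h4c : (((4 * cP k hd he : ℝ)) : ℂ) ≠ 0 := by
      exact_mod_cast (by positivity : (0 : ℝ) < 4 * cP k hd he).ne'
    refine ⟨hxc i, ?_, ?_⟩
    · change -(2 * x i d - G e d * x i e - G c d * 1) * G d c =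
        ((hd ^ 2 : ℝ) : ℂ) * 1 * ((av i : ℝ) + iot τ c d * ((0 : ℝ) : ℂ))
      rw [hxd, hxe]
      simp only [xd]
      field_simp
      push_cast
      ring
    · change ((4 * cP k hd he : ℝ) : ℂ) * G e c * x i e =
        ((he * hd ^ 2 : ℝ) : ℂ) * 1 * (1 + iot τ c d) *
          ((y0 (τ ^ 2) k hd he (av i) : ℝ) + iot τ c d * ((0 : ℝ) : ℂ))
      rw [hxe]
      simp only [xe, δ]
      rw [Complex.ofReal_zero]
      field_simp
      ring

end Pool.Agent.Helper6.MONO
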