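import Pool.Agent.Helper6.MONO.Stmts2

set_option autoImplicit false

namespace Pool.Agent.Helper6.MONO.S

theorem trs_half {x : ℝ} {X : I} (h : mem x X) : mem x (lo X) ∨ mem x (hi X) := by
  cases X with
  | pos l u =>
    obtain ⟨a1, a2⟩ := h
    rcases le_total (x * 268435456) ((mid l u : ℕ) : ℝ) with h1 | h1
    · exact Or.inl ⟨a1, h1⟩
    · exact Or.inr ⟨h1, a2⟩
  | neg l u =>
    obtain ⟨a1, a2⟩ := h
    rcases le_total (x * 268435456) (-((mid l u : ℕ) : ℝ)) with h1 | h1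
    · exact Or.inl ⟨a1, h1⟩
    · exact Or.inr ⟨h1, a2⟩
  | mix l u =>
    obtain ⟨a1, a2⟩ := h
    change mem x (loX l u) ∨ mem x (hiX l u)
    unfold loX hiX
    cases e : Nat.ble l u with
    | true =>
      rcases le_total (x * 268435456) ((mif l u : ℕ) : ℝ) with h1 | h1
      · exact Or.inl ⟨a1, h1⟩
      · exact Or.inr ⟨h1, a2⟩
    | false =>
      rcases le_total (x * 268435456) (-((mif u l : ℕ) : ℝ)) with h1 | h1
      · exact Or.inl ⟨a1, h1⟩
      · exact Or.inr ⟨h1, a2⟩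

/-- the invariant of the induction -/
def trs_P (t : Tag) (s k hd he R : ℝ) (z : RSt) (c : Cell) : Prop :=
  InPr c s k hd he z ∧ (t.rt = RT.tl → mem R c.R)

theorem trs_upd {t : Tag} {s k hd he R : ℝ} {z : RSt} (q : Co) {c : Cell}
    (h : trs_P t s k hd he R z c) :
    trs_P t s k hd he R z (upd lo q c) ∨ trs_P t s k hd he R z (upd hi q c) := by
  obtain ⟨⟨h1, h2, h3, h4, h5, h6, h7⟩, h8⟩ := h
  cases q with
  | a =>
    exact (trs_half h1).imp (fun g => ⟨⟨g, h2, h3, h4, h5, h6, h7⟩, h8⟩)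
      (fun g => ⟨⟨g, h2, h3, h4, h5, h6, h7⟩, h8⟩)
  | b =>
    exact (trs_half h2).imp (fun g => ⟨⟨h1, g, h3, h4, h5, h6, h7⟩, h8⟩)
      (fun g => ⟨⟨h1, g, h3, h4, h5, h6, h7⟩, h8⟩)
  | be =>
    exact (trs_half h3).imp (fun g => ⟨⟨h1, h2, g, h4, h5, h6, h7⟩, h8⟩)
      (fun g => ⟨⟨h1, h2, g, h4, h5, h6, h7⟩, h8⟩)
  | s =>
    exact (trs_half h4).imp (fun g => ⟨⟨h1, h2, h3, g, h5, h6, h7⟩, h8⟩)
      (fun g => ⟨⟨h1, h2, h3, g, h5, h6, h7⟩, h8⟩)
  | k =>
    exact (trs_half h5).imp (fun g => ⟨⟨h1, h2, h3, h4, g, h6, h7⟩, h8⟩)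
      (fun g => ⟨⟨h1, h2, h3, h4, g, h6, h7⟩, h8⟩)
  | hd =>
    exact (trs_half h6).imp (fun g => ⟨⟨h1, h2, h3, h4, h5, g, h7⟩, h8⟩)
      (fun g => ⟨⟨h1, h2, h3, h4, h5, g, h7⟩, h8⟩)
  | he =>
    exact (trs_half h7).imp (fun g => ⟨⟨h1, h2, h3, h4, h5, h6, g⟩, h8⟩)
      (fun g => ⟨⟨h1, h2, h3, h4, h5, h6, g⟩, h8⟩)
  | R =>
    by_cases ht : t.rt = RT.tl
    · exact (trs_half (h8 ht)).imp (fun g => ⟨⟨h1, h2, h3, h4, h5, h6, h7⟩, fun _ => g⟩)
        (fun g => ⟨⟨h1, h2, h3, h4, h5, h6, h7⟩, fun _ => g⟩)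
    · exact Or.inl ⟨⟨h1, h2, h3, h4, h5, h6, h7⟩, fun h => absurd h ht⟩

theorem trs_s (q : Co) {c : Cell} {sa sb : ℕ} (h : c.s = I.pos sa sb) :
    (∃ sa' sb', (upd lo q c).s = I.pos sa' sb') ∧ ∃ sa' sb', (upd hi q c).s = I.pos sa' sb' := by
  cases q with
  | s =>
    refine ⟨⟨sa, mid sa sb, ?_⟩, mid sa sb, sb, ?_⟩
    · change lo c.s = _
      rw [h]
      rfl
    · change hi c.s = _
      rw [h]
      rfl
  | a => exact ⟨⟨sa, sb, h⟩, sa, sb, h⟩
  | b => exact ⟨⟨sa, sb, h⟩, sa, sb, h⟩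
  | be => exact ⟨⟨sa, sb, h⟩, sa, sb, h⟩
  | R => exact ⟨⟨sa, sb, h⟩, sa, sb, h⟩
  | k => exact ⟨⟨sa, sb, h⟩, sa, sb, h⟩
  | hd => exact ⟨⟨sa, sb, h⟩, sa, sb, h⟩
  | he => exact ⟨⟨sa, sb, h⟩, sa, sb, h⟩

theorem trs_lk (f : Bx → Bool) (p : Pth) : ∀ bt : BTr, lk p bt f = true →
    ∃ x, BTr.at p bt = some x ∧ f x = true := by
  induction p with
  | z =>
    intro bt h
    cases bt with
    | e => exact absurd (show false = true from h) (by simp)
    | b x => exact ⟨x, rfl, h⟩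
    | n l r => exact absurd (show false = true from h) (by simp)
  | l p ih =>
    intro bt h
    cases bt with
    | e => exact absurd (show false = true from h) (by simp)
    | b x => exact absurd (show false = true from h) (by simp)
    | n l r => exact ih l h
  | r p ih =>
    intro bt h
    cases bt with
    | e => exact absurd (show false = true from h) (by simp)
    | b x => exact absurd (show false = true from h) (by simp)
    | n l r => exact ih r h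

theorem trs_good {s : ℝ} {sa sb : Nat} (hs : mem s (I.pos sa sb)) (eps : Bool) (even : Bool)
    {z : RSt} {z_ : St} (hz : memSt z z_) {k : ℝ} {k_ : I} (hk : mem k k_) {hd : ℝ} {hd_ : I}
    (hhd : mem hd hd_) {he : ℝ} {he_ : I} (hhe : mem he he_) {R : ℝ} {R_ : I} (rt : RT)
    (hR : rt = RT.tl → mem R R_) (hrt : rtOK rt k R) {X : St} {dc : I} {dl : ℝ} (hdl : mem dl dc)
    (hok : okR (ev rt (I.pos sa sb) eps even z_ k_ hd_ he_ R_) X dc = true) :
    memSt (r_stp s eps even z k hd he R).st X ∧ (r_stp s eps even z k hd he R).L + dl ≤ -(1 / 268435456) ∧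
      (r_stp s eps even z k hd he R).ck := by
  cases rt with
  | r2 =>
    have hR1 : R = 1 := hrt
    rw [hR1]
    exact m_rb2 hs eps even hz hk hhd hhe _ _ _ hdl hok
  | r3 =>
    have hR1 : R = 1 - 2 * (1 * (1 / (k * (k + 1)))) := hrt
    rw [hR1]
    have h := m_rb3 hs eps even hz hk hhd hhe _ _ _ hdl hok
    exact ⟨h.1, h.2.1, h.2.2.2⟩
  | r4 =>
    have hR1 : R = 1 - 2 * (1 * (1 / (k * k))) := hrt
    rw [hR1]
    have h := m_rb4 hs eps even hz hk hhd hhe _ _ _ hdl hok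
    exact ⟨h.1, h.2.1, h.2.2.2⟩
  | r5 =>
    have hR1 : R = 1 - 2 * ((1 + k) * (1 / (k * (k * k + k - 1)))) := hrt
    rw [hR1]
    have h := m_rb5 hs eps even hz hk hhd hhe _ _ _ hdl hok
    exact ⟨h.1, h.2.1, h.2.2.2⟩
  | r6 =>
    have hR1 : R = 1 - 2 * (1 * (1 / (k * k - 1))) := hrt
    rw [hR1]
    have h := m_rb6 hs eps even hz hk hhd hhe _ _ _ hdl hok
    exact ⟨h.1, h.2.1, h.2.2.2⟩
  | tl => exact m_stp hs eps even hz hk hhd hhe (hR rfl) _ _ _ hdl hok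

theorem trs_pot (a b : ℕ) :
    mem (((a : ℝ) - b) / 268435456) (I.sub (I.pos a a) (I.pos b b)) := by
  have h : ((a : ℝ) - b) / 268435456 = (a : ℝ) / 268435456 - (b : ℝ) / 268435456 := by ring
  rw [h]
  refine mem_sub ?_ ?_
  · rw [mem_pos_iff]
    have : (a : ℝ) / 268435456 * 268435456 = a := by norm_num
    rw [this]
    exact ⟨le_refl _, le_refl _⟩
  · rw [mem_pos_iff]
    have : (b : ℝ) / 268435456 * 268435456 = b := by norm_num
    rw [this]
    exact ⟨le_refl _, le_refl _⟩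

theorem st_TRS : ST_TRS := by
  intro t src bt tr
  have key : ∀ (c : Cell) (sa sb : ℕ), c.s = I.pos sa sb → chkTr t src bt tr c = true →
      ∀ (s k hd he R : ℝ) (z : RSt), trs_P t s k hd he R z c →
      mem z.yr src.z.yr → mem z.ad src.z.ad → mem z.bd src.z.bd → mem z.bed src.z.bed →
      rtOK t.rt k R →
      (r_stp s t.eps t.even z k hd he R).ck ∧
      ∃ (p : Pth) (x : Bx), BTr.at p bt = some x ∧ (x.v = true → t.vout = true) ∧
        memSt (r_stp s t.eps t.even z k hd he R).st x.z ∧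
        (r_stp s t.eps t.even z k hd he R).L + ((x.pot : ℝ) - src.pot) / 268435456 ≤
          -(1 / 268435456) := by
    induction tr with
    | L p =>
      intro c sa sb hcs hchk s k hd he R z hP hyr had hbd hbed hrt
      obtain ⟨x, hx, hok⟩ := trs_lk _ p bt hchk
      obtain ⟨h1, h2⟩ := band_eq hok
      obtain ⟨⟨g1, g2, g3, g4, g5, g6, g7⟩, g8⟩ := hP
      rw [hcs] at h2 g4
      have h3 := trs_good g4 t.eps t.even (z_ := St.mk c.a c.b c.be src.z.yr src.z.ad src.z.bd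
        src.z.bed) ⟨g1, g2, g3, hyr, had, hbd, hbed⟩ g5 g6 g7 t.rt g8 hrt (trs_pot x.pot src.pot) h2
      refine ⟨h3.2.2, p, x, hx, ?_, h3.1, h3.2.1⟩
      intro hv
      rw [hv] at h1
      exact h1
    | N q x y ihx ihy =>
      intro c sa sb hcs hchk s k hd he R z hP hyr had hbd hbed hrt
      obtain ⟨h1, h2⟩ := band_eq (show band (chkTr t src bt x (upd lo q c))
        (chkTr t src bt y (upd hi q c)) = true from hchk)
      obtain ⟨⟨sa1, sb1, e1⟩, sa2, sb2, e2⟩ := trs_s q hcs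
      rcases trs_upd q hP with hP' | hP'
      · exact ihx _ sa1 sb1 e1 h1 s k hd he R z hP' hyr had hbd hbed hrt
      · exact ihy _ sa2 sb2 e2 h2 s k hd he R z hP' hyr had hbd hbed hrt
  intro c sa sb hcs hchk s k hd he R z hIn hR hyr had hbd hbed hrt
  exact key c sa sb hcs hchk s k hd he R z ⟨hIn, hR⟩ hyr had hbd hbed hrt

end Pool.Agent.Helper6.MONO.S
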